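import Mathlib
import Pool.Agent.N746.NF.Multi

/-!
# Failures of the abc inequality over a number field multiply

Let `K` be a number field. If the abc conjecture over `K` is false, then for all small `ε > 0` there
is `L` such that for every `C` there are at least `ε ^ (-s)` points `P = (y : 1 - y : -1)` over `K`
with `h (P) ≥ (1 + ε) rad (P) + C`, whose `y` have the same denominators (the same absolute values
`max 1 |y|_v` at all finite places) and whose heights lie in one interval of length `L`: one violation
produces many, slightly weaker violations with one and the same denominator ideal and about the same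
height. Here `s ≥ 0` is any number with `∑ 2 ≤ m ≤ M, m ^ (-s) > 1` for some `M`, for instance `s = 1`
(with `M = 4`).
-/

namespace Pool.Agent.Results.MP_a793bb_nt.ExceptionsMultiplyOverK

open NumberField Pool.Agent.N746.NF

/-- **The abc conjecture over a number field is equivalent to a bound for the number of the
exceptional points with the same denominators and about the same height.** -/
theorem result (K : Type) [Field K] [NumberField K] (s : ℝ) (hs0 : 0 ≤ s) (M : ℕ)
    (hs : 1 < ∑ m ∈ Finset.Icc 2 M, (m : ℝ) ^ (-s)) :
    ABCK K ↔
      ∀ δ : ℝ, 0 < δ → ∃ ε : ℝ, 0 < ε ∧ ε < δ ∧ ∀ L : ℝ, ∃ C : ℝ, ∀ (f : FinitePlace K → ℝ) (H : ℝ),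
        (Exc ε C H L f).Finite ∧ ((Exc ε C H L f).ncard : ℝ) < ε ^ (-s) :=
  multiplicity K s hs0 M hs

end Pool.Agent.Results.MP_a793bb_nt.ExceptionsMultiplyOverK
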