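import Mathlib
import Pool.Agent.N746.Rt.Main

/-!
# The abc conjecture is equivalent to the inequality for `∞` and the `n`-th roots of an integer

Let `n ≥ 2` and let `k ≠ 0` be an integer; let `n` be a prime which does not divide `k` or, more
generally, let `k` be a rational `n`-th power times an integer `k' ≡ 1 (mod n)`. The inequality of the
problem for the `n + 1` points `∞` and `α`, `α ^ n = k`, and the points `x / y` of `ℙ¹(ℚ)`, is
`max (|x|, |y|) ^ (n - 1) ≤ κ R (y (x ^ n - k y ^ n)) ^ (1 + ε)`. In general `∞` is the only rational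
one of these points. We show that this inequality is equivalent to the abc conjecture over `ℚ`.
-/

namespace Pool.Agent.Results.MP_4d5ce1_nt.RootsOfInteger

open Pool.Agent.N746.Self Pool.Agent.N746.Rt

/-- **The abc conjecture over `ℚ` is equivalent to the inequality for `∞` and the `n`-th roots of `k`.** -/
theorem result (n : ℕ) (hn : 2 ≤ n) (k : ℤ) (hk0 : k ≠ 0)
    (hk : (∃ c d k' : ℤ, c ≠ 0 ∧ d ≠ 0 ∧ k * c ^ n = k' * d ^ n ∧ (n : ℤ) ∣ k' - 1) ∨
      (n.Prime ∧ ¬ (n : ℤ) ∣ k)) :
    RootPoints n k ↔ ABC fun _ _ _ => True :=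
  abc_iff_root n hn k hk0 hk

end Pool.Agent.Results.MP_4d5ce1_nt.RootsOfInteger
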