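import Mathlib
import Pool.Agent.N746.Self.Family

/-!
# The abc conjecture is equivalent to its restriction to a family of `X ^ (1 / n)` triples up to `X`

Let `n, N ≥ 1`, `δ > 0`, and let `Y i > 1` be real numbers which tend to infinity and satisfy
`Y (i + 1) ≤ (Y i) ^ r` for some `r`, for instance `Y i = 2 ^ (r ^ i)`. Consider the coprime triples

  `((x y) ^ n, Q ^ 2, P ^ 2)`, `P = (x ^ n + y ^ n) / 2`, `Q = (x ^ n - y ^ n) / 2`,

for which `N ∣ Q`, `Q ≤ δ P` and `P ^ 2` lies in one of the intervals `[Y i, (Y i) ^ (1 + δ)]`. So all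
three members are perfect powers with prescribed exponents `n, 2, 2`, the triples are close to one
cusp at the infinite place and at all primes dividing `N`, and they are of a size in a sparse
sequence of windows; at most `(4 X) ^ (1 / n)` of them satisfy `c ≤ X`.

The abc conjecture holds if and only if it holds for these triples.
-/

namespace Pool.Agent.Results.MP_7aad9f_nt.SparseFamily

open Filter Pool.Agent.N746.Self

/-- **The abc conjecture is equivalent to its restriction to sparse families of triples of perfect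
powers**, which are close to a cusp at finitely many prescribed places and of sizes in a sparse
sequence of windows. -/
theorem result (n N r : ℕ) (δ : ℝ) (Y : ℕ → ℝ) (hn : 1 ≤ n) (hN : 1 ≤ N) (hδ : 0 < δ)
    (hY : ∀ i, 1 < Y i) (hYt : Tendsto Y atTop atTop) (hYr : ∀ i, Y (i + 1) ≤ (Y i) ^ r) :
    (ABC (Dihedral n N δ Y) ↔ ABC fun _ _ _ => True) ∧
    ∀ X : ℝ, 1 ≤ X →
      {t : ℕ × ℕ × ℕ | 0 < t.1 ∧ (t.2.2 : ℝ) ≤ X ∧ Dihedral n N δ Y t.1 t.2.1 t.2.2}.Finite ∧
      ({t : ℕ × ℕ × ℕ | 0 < t.1 ∧ (t.2.2 : ℝ) ≤ X ∧ Dihedral n N δ Y t.1 t.2.1 t.2.2}.ncard : ℝ) ≤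
        (4 * X) ^ (1 / (n : ℝ)) :=
  ⟨family n N r hn hN δ hδ Y hY hYt hYr, fun X hX => count n N hn δ Y X hX⟩

end Pool.Agent.Results.MP_7aad9f_nt.SparseFamily
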