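import Mathlib
import Pool.Agent.N746.Tw.Scale

/-!
# The abc conjecture is equivalent to the inequality for the three points `∞, √D, -√D`

Let `D = 4 ^ k m`, with `m` odd, for example any odd `D`; say `D = -1`. The inequality of the problem for
the set `{∞, √D, -√D}` and the points `x / y` of `ℙ¹(ℚ)` is `max (|x|, |y|) ≤ κ R (y (x ^ 2 - D y ^ 2)) ^ (1 + ε)`.
If `D` is not a square, then only one of the three points is rational. We show that it is equivalent to the
abc conjecture over `ℚ`, and also to the abc conjecture for the coprime solutions of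
`x ^ 2 - D y ^ 2 = z ^ n`, for any one `n ≥ 1`, close to a cusp at finitely many places and of sizes in a
sparse sequence of windows.
-/

namespace Pool.Agent.Results.MP_4d5ce1_nt.TwistedThreePoints

open Filter Pool.Agent.N746.Self Pool.Agent.N746.Tw

/-- **The abc conjecture over `ℚ` is equivalent to the inequality for one twisted three point set.** -/
theorem result (D m : ℤ) (k : ℕ) (hm : Odd m) (hD : D = 4 ^ k * m) :
    (ThreePoints D ↔ ABC fun _ _ _ => True) ∧
    ∀ n : ℕ, 1 ≤ n → ∀ (N s : ℕ) (δ : ℝ) (Y : ℕ → ℝ), 1 ≤ N → 0 < δ → (∀ i, 1 < Y i) →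
      Tendsto Y atTop atTop → (∀ i, Y (i + 1) ≤ (Y i) ^ s) →
      ((ABC fun a b c => Pell D n a b c ∧ N ∣ a ∧ (a : ℝ) ≤ δ * c ∧
          ∃ i, Y i ≤ c ∧ (c : ℝ) ≤ (Y i) ^ (1 + δ)) ↔
        ABC fun _ _ _ => True) :=
  ⟨three_iff D m k hm hD, fun n hn N s δ Y hN hδ hY hYt hYs =>
    pell_scale_iff D m k hm hD n hn N s hN δ hδ Y hY hYt hYs⟩

end Pool.Agent.Results.MP_4d5ce1_nt.TwistedThreePoints
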